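import Pool.Agent.Mg.F96872c.G81003f

open MeasureTheory Pool.Agent.MP_96872c_an

namespace Pool.Agent.Results.MP_96872c_an.FTLOptimal

theorem result (N : ℕ) (hN : 2 ≤ N) (μ ε : ℝ) (hμ : 0 < μ) (hε : 0 < ε) (_hε1 : ε < 1)
    {Ω Ω' : Type} [MeasurableSpace Ω] [MeasurableSpace Ω'] (P : Measure Ω) (P' : Measure Ω')
    [IsProbabilityMeasure P] [IsProbabilityMeasure P'] (S : Search N μ P) (S' : Search N μ P') :
    ENNReal.ofReal (value N μ ε) ≤ S'.cost ε ∧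
      (S.IsFTL → S.cost ε = ENNReal.ofReal (value N μ ε) ∧ S.cost ε ≤ S'.cost ε) :=
  ⟨(S'.main hN hμ hε).1, fun h => ⟨(S.main hN hμ hε).2 h,
    ((S.main hN hμ hε).2 h).trans_le (S'.main hN hμ hε).1⟩⟩

end Pool.Agent.Results.MP_96872c_an.FTLOptimal
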